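import Pool.Agent.L7h3.CE.Stm2

set_option autoImplicit false

/-! # Project CE: common lemmas for the parts QF and QM (helper10) -/

namespace Pool.Agent.L7h10.CE

open Set Pool.Agent.Helper391.Lg Pool.Agent.L7h3.CE

universe u

variable {V : Type u} {G : SimpleGraph V} {k : V → ℕ}

/-- the colours of the ends of an edge in the boundary of two different classes -/
theorem ends_of_bd {e : Sym2 V} {i j : ℕ} (hij : i ≠ j) (hi : e ∈ bd G (Fib k i))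
    (hj : e ∈ bd G (Fib k j)) : ∃ x y, e = s(x, y) ∧ k x = i ∧ k y = j := by
  obtain ⟨-, ⟨x, hx, hxi⟩, -⟩ := hi
  obtain ⟨-, ⟨y, hy, hyj⟩, -⟩ := hj
  have hxi' : k x = i := hxi
  have hyj' : k y = j := hyj
  have hne : x ≠ y := by
    rintro rfl
    exact hij (hxi'.symm.trans hyj')
  exact ⟨x, y, (Sym2.mem_and_mem_iff hne).1 ⟨hx, hy⟩, hxi', hyj'⟩

/-- finitely many cliques are finite -/
theorem clq_fin (h : Qu G k) {J : Set ℕ} (hJ : J.Finite) :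
    {p : QV G k | p.1.1 ∈ J}.Finite := by
  have h1 : (⋃ j ∈ J, ({j} : Set ℕ) ×ˢ
      (Sum.inl '' bd G (Fib k j) ∪ range (Sum.inr : Fin 5 → Sym2 V ⊕ Fin 5))).Finite :=
    hJ.biUnion fun j _ => (finite_singleton j).prod
      (((h.fin j).image _).union (finite_range _))
  have h2 : {p : QV G k | p.1.1 ∈ J} ⊆ Subtype.val ⁻¹' (⋃ j ∈ J, ({j} : Set ℕ) ×ˢ
      (Sum.inl '' bd G (Fib k j) ∪ range (Sum.inr : Fin 5 → Sym2 V ⊕ Fin 5))) := by
    rintro ⟨⟨j, x⟩, hp1, hp2⟩ hp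
    have hp : j ∈ J := hp
    rw [mem_preimage, mem_iUnion₂]
    refine ⟨j, hp, rfl, ?_⟩
    cases x with
    | inl e => exact Or.inl ⟨e, hp2 e rfl, rfl⟩
    | inr i => exact Or.inr ⟨i, rfl⟩
  exact (h1.preimage Subtype.val_injective.injOn).subset h2

/-- the vertex `(k v, inr 0)` of the clique of `v` -/
def pt (G : SimpleGraph V) (k : V → ℕ) (v : V) : QV G k :=
  ⟨(k v, Sum.inr 0), ⟨v, rfl⟩, fun _ h => by cases h⟩

theorem pt_col (v : V) : (pt G k v).1.1 = k v := rfl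

/-- adjacency in the expansion between different cliques -/
theorem adj_diff {p q : QV G k} (h : (QG G k).Adj p q) (hne : p.1.1 ≠ q.1.1) :
    ∃ e x y, p.1.2 = Sum.inl e ∧ q.1.2 = Sum.inl e ∧ e = s(x, y) ∧ k x = p.1.1 ∧ k y = q.1.1 ∧
      e ∈ G.edgeSet ∧ e ∈ bd G (Fib k p.1.1) ∧ e ∈ bd G (Fib k q.1.1) := by
  obtain ⟨-, h | ⟨h1, e, h2⟩⟩ := h
  · exact absurd h hne
  · have h3 : q.1.2 = Sum.inl e := h1.symm.trans h2
    have h4 := p.2.2 e h2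
    have h5 := q.2.2 e h3
    obtain ⟨x, y, hxy, hx, hy⟩ := ends_of_bd hne h4 h5
    exact ⟨e, x, y, h2, h3, hxy, hx, hy, h4.1, h4, h5⟩

/-- edges of `A` are edges of the expansion which avoid the outer clique -/
theorem DR.A_sub {A B : Set (Sym2 (QV G k))} (h : DR G k A B) {p q : QV G k}
    (hpq : s(p, q) ∈ A) : (QG G k).Adj p q ∧ p.1.1 ≠ 0 ∧ q.1.1 ≠ 0 := by
  have h1 : s(p, q) ∈ A ∪ B := Or.inl hpq
  rw [h.union] at h1
  exact ⟨h1.1, h1.2 p (Sym2.mem_mk_left p q), h1.2 q (Sym2.mem_mk_right p q)⟩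

theorem DR.B_sub {A B : Set (Sym2 (QV G k))} (h : DR G k A B) {p q : QV G k}
    (hpq : s(p, q) ∈ B) : (QG G k).Adj p q ∧ p.1.1 ≠ 0 ∧ q.1.1 ≠ 0 := by
  have h1 : s(p, q) ∈ A ∪ B := Or.inr hpq
  rw [h.union] at h1
  exact ⟨h1.1, h1.2 p (Sym2.mem_mk_left p q), h1.2 q (Sym2.mem_mk_right p q)⟩

end Pool.Agent.L7h10.CE
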