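import Pool.Agent.L7h10.CE.Base

set_option autoImplicit false

/-! # Project CE, part QF (helper10) -/

namespace Pool.Agent.L7h10.CE

open Set Pool.Agent.Helper391.Lg Pool.Agent.L7h3.CE

universe u

theorem s_QF : S_QF.{u} := by
  classical
  intro V G k hQ A B hD A' B' hdec S hS
  -- the edges used
  set R : Set (Sym2 V) := {e | e ∈ tot G k A A' ∧ ∀ x ∈ e, x ∉ S} with hR
  set J₀ : Set ℕ := k '' S with hJ₀
  have hJ₀f : J₀.Finite := hS.image k
  obtain ⟨K'', hK''f, hSK, hfa⟩ := hD.faith {p : QV G k | p.1.1 ∈ J₀} (clq_fin hQ hJ₀f)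
  set J₁ : Set ℕ := (fun p : QV G k => p.1.1) '' K'' with hJ₁
  have hJ₁f : J₁.Finite := hK''f.image _
  -- the sets `K_j`
  have hKj : ∀ j : ℕ, ∃ K : Set V, K.Finite ∧ (j ≠ 0 → (∃ v, k v = j) →
      ∀ u ∈ Fib k j \ K, ∀ v ∈ Fib k j \ K,
        (SimpleGraph.fromEdgeSet (ins G (Fib k j \ K))).Reachable u v →
        (SimpleGraph.fromEdgeSet {e | e ∈ A' j ∧ ∀ x ∈ e, x ∉ S}).Reachable u v) := by
    intro j
    by_cases hj : j ≠ 0 ∧ ∃ v, k v = j
    · obtain ⟨K, h1, -, h3⟩ := (hdec j hj.1 hj.2).faith S hS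
      exact ⟨K, h1, fun _ _ => h3⟩
    · exact ⟨∅, finite_empty, fun h1 h2 => absurd ⟨h1, h2⟩ hj⟩
  choose Kj hKjf hKj using hKj
  -- reachability inside a class
  have hcls : ∀ j, j ≠ 0 → j ∉ J₀ → ∀ a b, k a = j → k b = j →
      (SimpleGraph.fromEdgeSet R).Reachable a b := by
    intro j hj0 hjJ a b ha hb
    have hd := hdec j hj0 ⟨a, ha⟩
    refine (hd.conn a ha b hb).mono (SimpleGraph.fromEdgeSet_mono ?_)
    intro e he
    refine ⟨Or.inr ⟨j, hj0, ⟨a, ha⟩, he⟩, fun x hx hxS => ?_⟩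
    have hxj : k x = j := (hd.subA he).2 x hx
    exact hjJ ⟨x, hxS, hxj⟩
  -- one edge of `A`
  have hstep : ∀ p q : QV G k, s(p, q) ∈ A → p ∉ K'' → q ∉ K'' → ∀ a b, k a = p.1.1 → k b = q.1.1 →
      (SimpleGraph.fromEdgeSet R).Reachable a b := by
    intro p q hpq hp hq a b ha hb
    obtain ⟨hadj, hp0, hq0⟩ := DR.A_sub hD hpq
    have hpJ : p.1.1 ∉ J₀ := fun h => hp (hSK h)
    have hqJ : q.1.1 ∉ J₀ := fun h => hq (hSK h)
    by_cases hne : p.1.1 = q.1.1
    · exact hcls p.1.1 hp0 hpJ a b ha (hb.trans hne.symm)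
    · obtain ⟨e, x, y, he1, he2, hexy, hx, hy, heG, -, -⟩ := adj_diff hadj hne
      have h1 := hcls p.1.1 hp0 hpJ a x ha hx
      have h2 := hcls q.1.1 hq0 hqJ y b hy hb
      have hxy : x ≠ y := by
        rintro rfl
        exact hne (hx.symm.trans hy)
      have heR : s(x, y) ∈ R := by
        refine ⟨Or.inl ⟨p, q, by rw [← hexy]; exact he1, by rw [← hexy]; exact he2, hpq⟩, ?_⟩
        intro z hz hzS
        rcases Sym2.mem_iff.1 hz with rfl | rfl
        · exact hpJ ⟨z, hzS, hx⟩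
        · exact hqJ ⟨z, hzS, hy⟩
      have h3 : (SimpleGraph.fromEdgeSet R).Adj x y := by
        rw [SimpleGraph.fromEdgeSet_adj]
        exact ⟨heR, hxy⟩
      exact (h1.trans h3.reachable).trans h2
  -- paths of `A`
  have htr : ∀ p q : QV G k, p.1.1 ≠ 0 → p ∉ K'' →
      (SimpleGraph.fromEdgeSet {e | e ∈ A ∧ ∀ x ∈ e, x ∉ K''}).Reachable p q →
      ∀ a b, k a = p.1.1 → k b = q.1.1 → (SimpleGraph.fromEdgeSet R).Reachable a b := by
    intro p q hp0 hpK hpq
    rw [SimpleGraph.reachable_iff_reflTransGen] at hpq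
    induction hpq with
    | refl =>
      intro a b ha hb
      exact hcls p.1.1 hp0 (fun h => hpK (hSK h)) a b ha hb
    | @tail q r _ hqr ih =>
      intro a b ha hb
      rw [SimpleGraph.fromEdgeSet_adj] at hqr
      obtain ⟨⟨h1, h2⟩, -⟩ := hqr
      obtain ⟨c, hc⟩ := q.2.1
      exact (ih a c ha hc).trans (hstep q r h1 (h2 q (Sym2.mem_mk_left q r))
        (h2 r (Sym2.mem_mk_right q r)) c b hc hb)
  -- the finite set
  refine ⟨S ∪ (⋃ j ∈ J₁, Kj j) ∪ (⋃ j ∈ J₁, ⋃ e ∈ bd G (Fib k j), {x | x ∈ e}), ?_,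
    fun x hx => Or.inl (Or.inl hx), ?_⟩
  · refine (hS.union (hJ₁f.biUnion fun j _ => hKjf j)).union
      (hJ₁f.biUnion fun j _ => (hQ.fin j).biUnion fun e _ => ?_)
    induction e using Sym2.ind with
    | _ x y =>
      refine ((finite_singleton x).union (finite_singleton y)).subset ?_
      intro z hz
      rcases Sym2.mem_iff.1 hz with rfl | rfl
      · exact Or.inl rfl
      · exact Or.inr rfl
  · set K : Set V := S ∪ (⋃ j ∈ J₁, Kj j) ∪ (⋃ j ∈ J₁, ⋃ e ∈ bd G (Fib k j), {x | x ∈ e}) with hK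
    intro a ha b hb hab
    -- an edge outside `K` does not leave a class `j ∈ J₁`
    have hedge : ∀ x y, (SimpleGraph.fromEdgeSet (ins G ({v | k v ≠ 0} \ K))).Adj x y →
        k x ∈ J₁ → k y = k x := by
      intro x y hxy hx
      rw [SimpleGraph.fromEdgeSet_adj] at hxy
      by_contra hne
      have he : s(x, y) ∈ bd G (Fib k (k x)) :=
        ⟨hxy.1.1, ⟨x, Sym2.mem_mk_left x y, rfl⟩, ⟨y, Sym2.mem_mk_right x y, hne⟩⟩
      have hxK : x ∈ K := by
        right
        rw [mem_iUnion₂]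
        refine ⟨k x, hx, ?_⟩
        rw [mem_iUnion₂]
        exact ⟨_, he, Sym2.mem_mk_left x y⟩
      exact (hxy.1.2 x (Sym2.mem_mk_left x y)).2 hxK
    by_cases hJ : k a ∈ J₁
    · -- the path stays in the class
      have hpath : ∀ x, (SimpleGraph.fromEdgeSet (ins G ({v | k v ≠ 0} \ K))).Reachable a x →
          k x = k a ∧ x ∉ K ∧
          (SimpleGraph.fromEdgeSet (ins G (Fib k (k a) \ Kj (k a)))).Reachable a x := by
        intro x hax
        rw [SimpleGraph.reachable_iff_reflTransGen] at hax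
        induction hax with
        | refl => exact ⟨rfl, ha.2, SimpleGraph.Reachable.refl _⟩
        | @tail x y _ hxy ih =>
          obtain ⟨h1, h2, h3⟩ := ih
          have h4 : k y = k x := hedge x y hxy (by rw [h1]; exact hJ)
          rw [SimpleGraph.fromEdgeSet_adj] at hxy
          have hyK : y ∉ K := (hxy.1.2 y (Sym2.mem_mk_right x y)).2
          refine ⟨h4.trans h1, hyK, h3.trans ?_⟩
          have h5 : (SimpleGraph.fromEdgeSet (ins G (Fib k (k a) \ Kj (k a)))).Adj x y := by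
            rw [SimpleGraph.fromEdgeSet_adj]
            refine ⟨⟨hxy.1.1, fun z hz => ?_⟩, hxy.2⟩
            have hnot : ∀ z, z ∉ K → z ∉ Kj (k a) := by
              intro z hz hz'
              apply hz
              left
              right
              rw [mem_iUnion₂]
              exact ⟨k a, hJ, hz'⟩
            rcases Sym2.mem_iff.1 hz with rfl | rfl
            · exact ⟨h1, hnot _ h2⟩
            · exact ⟨h4.trans h1, hnot _ hyK⟩
          exact h5.reachable
      obtain ⟨h1, h2, h3⟩ := hpath b hab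
      have hnot : ∀ z, z ∉ K → z ∉ Kj (k a) := by
        intro z hz hz'
        apply hz
        left
        right
        rw [mem_iUnion₂]
        exact ⟨k a, hJ, hz'⟩
      have h4 := hKj (k a) ha.1 ⟨a, rfl⟩ a ⟨rfl, hnot a ha.2⟩ b ⟨h1, hnot b h2⟩ h3
      refine h4.mono (SimpleGraph.fromEdgeSet_mono ?_)
      rintro e ⟨he1, he2⟩
      exact ⟨Or.inr ⟨k a, ha.1, ⟨a, rfl⟩, he1⟩, he2⟩
    · -- the path avoids the classes of `J₁`
      have hpath : ∀ x, (SimpleGraph.fromEdgeSet (ins G ({v | k v ≠ 0} \ K))).Reachable a x →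
          k x ∉ J₁ := by
        intro x hax
        rw [SimpleGraph.reachable_iff_reflTransGen] at hax
        induction hax with
        | refl => exact hJ
        | @tail x y _ hxy ih =>
          intro hy
          have := hedge y x hxy.symm hy
          exact ih (by rw [this]; exact hy)
      have hbJ := hpath b hab
      have hpa : pt G k a ∉ K'' := fun h => hJ ⟨_, h, rfl⟩
      have hpb : pt G k b ∉ K'' := fun h => hbJ ⟨_, h, rfl⟩
      have ha0 : pt G k a ∈ C1 G k := ha.1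
      have hb0 : pt G k b ∈ C1 G k := hb.1
      exact htr (pt G k a) (pt G k b) ha0 hpa (hfa _ ⟨ha0, hpa⟩ _ ⟨hb0, hpb⟩) a b rfl rfl

end Pool.Agent.L7h10.CE
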