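import Pool.Agent.L7h10.CE.Base

set_option autoImplicit false

/-! # Project CE, part QM (helper10) -/

namespace Pool.Agent.L7h10.CE

open Set Pool.Agent.Helper391.Lg Pool.Agent.L7h3.CE

universe u

theorem s_QM (h3 : S_Q3.{u}) : S_QM.{u} := by
  classical
  intro V G k hQ A B hD A' B' hdec Z hZ hZne hCne hcut
  by_cases hsplit : ∃ u v, k u = k v ∧ u ∈ Z ∧ v ∉ Z
  · -- `Z` splits a class
    obtain ⟨u, v, huv, hu, hv⟩ := hsplit
    have hj0 : k u ≠ 0 := hZ hu
    have hd := hdec (k u) hj0 ⟨u, rfl⟩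
    have hsub : cut G (Fib k (k u)) (Z ∩ Fib k (k u)) ⊆ cut G {v | k v ≠ 0} Z := by
      rintro e ⟨⟨he1, he2⟩, -, ⟨x, hx, hx2⟩, ⟨y, hy, hy2⟩⟩
      refine ⟨⟨he1, fun z hz => ?_⟩, he1, ⟨x, hx, hx2.1⟩, ⟨y, hy, fun h => hy2 ⟨h, he2 y hy⟩⟩⟩
      have : k z = k u := he2 z hz
      show k z ≠ 0
      rw [this]
      exact hj0
    obtain ⟨e, he1, he2⟩ := hd.meet (Z ∩ Fib k (k u)) inter_subset_right ⟨u, hu, rfl⟩
      ⟨v, huv.symm, fun h => hv h.1⟩ (hcut.subset hsub)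
    refine ⟨e, Or.inr ⟨k u, hj0, ⟨u, rfl⟩, he1⟩, ?_⟩
    obtain ⟨he3, ⟨x, hx, hx2⟩, ⟨y, hy, hy2⟩⟩ := he2
    exact ⟨he3, ⟨x, hx, hx2.1⟩, ⟨y, hy, fun h => hy2 ⟨h, (hd.subB he1).2 y hy⟩⟩⟩
  · -- `Z` is a union of classes
    have hns : ∀ u v, k u = k v → u ∈ Z → v ∈ Z := by
      intro u v huv hu
      by_contra hv
      exact hsplit ⟨u, v, huv, hu, hv⟩
    set Z' : Set (QV G k) := {p | ∃ z ∈ Z, k z = p.1.1} with hZ'
    have hZ'sub : Z' ⊆ C1 G k := by
      rintro p ⟨z, hz, hzp⟩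
      show p.1.1 ≠ 0
      rw [← hzp]
      exact hZ hz
    -- crossing edges of the expansion
    have hcross : ∀ p q : QV G k, (QG G k).Adj p q → p ∈ Z' → q ∉ Z' →
        ∃ e, p.1.2 = Sum.inl e ∧ q.1.2 = Sum.inl e ∧ e ∈ bd G Z ∧
          (q.1.1 ≠ 0 → e ∈ ins G {v | k v ≠ 0}) ∧ (q.1.1 = 0 → e ∈ bd G (Fib k 0)) := by
      intro p q hadj hp hq
      have hne : p.1.1 ≠ q.1.1 := by
        intro h
        obtain ⟨z, hz, hzp⟩ := hp
        exact hq ⟨z, hz, hzp.trans h⟩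
      obtain ⟨e, x, y, he1, he2, hexy, hx, hy, heG, heb1, heb2⟩ := adj_diff hadj hne
      obtain ⟨z, hz, hzp⟩ := hp
      have hxZ : x ∈ Z := hns z x (hzp.trans hx.symm) hz
      have hyZ : y ∉ Z := fun h => hq ⟨y, h, hy⟩
      refine ⟨e, he1, he2, ⟨heG, ⟨x, by rw [hexy]; exact Sym2.mem_mk_left x y, hxZ⟩,
        ⟨y, by rw [hexy]; exact Sym2.mem_mk_right x y, hyZ⟩⟩, ?_, ?_⟩
      · intro hq0
        refine ⟨heG, fun w hw => ?_⟩
        rw [hexy] at hw
        rcases Sym2.mem_iff.1 hw with rfl | rfl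
        · exact hZ hxZ
        · show k w ≠ 0
          rw [hy]
          exact hq0
      · intro hq0
        rw [← hq0]
        exact heb2
    -- finite boundary
    have hfin : (bd (QG G k) Z').Finite := by
      set E0 : Set (Sym2 V) := cut G {v | k v ≠ 0} Z ∪ bd G (Fib k 0) with hE0
      have hE0f : E0.Finite := hcut.union (hQ.fin 0)
      have hPF : {p : QV G k | ∃ e ∈ E0, p.1.2 = Sum.inl e}.Finite := by
        have h1 : (⋃ e ∈ E0, (k '' {x | x ∈ e}) ×ˢ ({Sum.inl e} : Set (Sym2 V ⊕ Fin 5))).Finite := by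
          refine hE0f.biUnion fun e _ => Set.Finite.prod (Set.Finite.image _ ?_) (finite_singleton _)
          induction e using Sym2.ind with
          | _ x y =>
            refine ((finite_singleton x).union (finite_singleton y)).subset ?_
            intro z hz
            rcases Sym2.mem_iff.1 hz with rfl | rfl
            · exact Or.inl rfl
            · exact Or.inr rfl
        refine (h1.preimage (f := Subtype.val) Subtype.val_injective.injOn).subset ?_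
        rintro p ⟨e, he, hp⟩
        rw [mem_preimage, mem_iUnion₂]
        refine ⟨e, he, ?_, hp⟩
        obtain ⟨-, ⟨x, hx, hx2⟩, -⟩ := p.2.2 e hp
        exact ⟨x, hx, hx2⟩
      refine ((hPF.prod hPF).image (fun p : QV G k × QV G k => s(p.1, p.2))).subset ?_
      intro f hf
      obtain ⟨hf1, ⟨p, hp, hpZ⟩, ⟨q, hq, hqZ⟩⟩ := hf
      have hpq : p ≠ q := by
        rintro rfl
        exact hqZ hpZ
      have hfpq : f = s(p, q) := (Sym2.mem_and_mem_iff hpq).1 ⟨hp, hq⟩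
      subst hfpq
      obtain ⟨e, he1, he2, he3, he4, he5⟩ := hcross p q hf1 hpZ hqZ
      have heE : e ∈ E0 := by
        by_cases h : q.1.1 = 0
        · exact Or.inr (he5 h)
        · exact Or.inl ⟨he4 h, he3⟩
      exact ⟨(p, q), ⟨⟨e, heE, he1⟩, ⟨e, heE, he2⟩⟩, rfl⟩
    -- a crossing edge of `B`
    have hB : ∃ p q : QV G k, s(p, q) ∈ B ∧ p ∈ Z' ∧ q ∉ Z' := by
      have hwalk : ∀ (P : Set (QV G k)) (p w : QV G k),
          (SimpleGraph.fromEdgeSet B).Reachable p w → p ∈ P → w ∉ P →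
          ∃ x y : QV G k, s(x, y) ∈ B ∧ x ∈ P ∧ y ∉ P := by
        intro P p w hpw
        rw [SimpleGraph.reachable_iff_reflTransGen] at hpw
        induction hpw with
        | refl => exact fun h1 h2 => absurd h1 h2
        | @tail x y _ hxy ih =>
          intro hp hy
          rw [SimpleGraph.fromEdgeSet_adj] at hxy
          by_cases hx : x ∈ P
          · exact ⟨x, y, hxy.1, hx, hy⟩
          · exact ih hp hx
      rcases (h3 V G k hQ).one 0 Z' hZ'sub hfin with hf | hf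
      · obtain ⟨z, hz⟩ := hZne
        have hp : pt G k z ∈ Z' := ⟨z, hz, rfl⟩
        obtain ⟨w, hw, hr⟩ := hD.out (pt G k z) (hZ'sub hp) Z' hf
        exact hwalk Z' _ w hr hp hw
      · obtain ⟨z, hz1, hz2⟩ := hCne
        have hq : pt G k z ∈ C1 G k \ Z' := by
          refine ⟨hz1, ?_⟩
          rintro ⟨z', hz', he⟩
          exact hz2 (hns z' z he hz')
        obtain ⟨w, hw, hr⟩ := hD.out (pt G k z) hq.1 (C1 G k \ Z') hf
        obtain ⟨x, y, hxy, hx, hy⟩ := hwalk (C1 G k \ Z') _ w hr hq hw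
        obtain ⟨-, -, hy0⟩ := DR.B_sub hD hxy
        refine ⟨y, x, ?_, ?_, hx.2⟩
        · rw [Sym2.eq_swap]
          exact hxy
        · by_contra h
          exact hy ⟨hy0, h⟩
    obtain ⟨p, q, hpq, hp, hq⟩ := hB
    obtain ⟨hadj, -, -⟩ := DR.B_sub hD hpq
    obtain ⟨e, he1, he2, he3, -, -⟩ := hcross p q hadj hp hq
    exact ⟨e, Or.inl ⟨p, q, he1, he2, hpq⟩, he3⟩

end Pool.Agent.L7h10.CE
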